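import Pool.Agent.Y745.SW.DefsA

set_option autoImplicit false

/-!
SW project (helper745), task IND: Gaussian law of the small primes and independence from the weight, part 1.
-/

namespace Pool.Agent.Y275.SW

open Filter Topology MeasureTheory Complex Set
open Pool.Agent.Y745.SW

noncomputable section

/-- the points where the normalised sum over the small primes lies in `(a, b)` -/
def SC (a b T : ℝ) : Set ℝ := {t ∈ Set.Icc (T + Real.log T) (2 * T - Real.log T) |
  a < Real.sqrt 2 * ((Px T t).re / Real.sqrt (Real.log (Real.log T))) ∧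
    Real.sqrt 2 * ((Px T t).re / Real.sqrt (Real.log (Real.log T))) < b}

theorem Px_cont (T : ℝ) : Continuous (Px T) := by
  unfold Px Py
  refine continuous_finsetSum _ fun p hp => ?_
  have hp' : (p : ℂ) ≠ 0 := by
    have := (Finset.mem_filter.1 hp).2.ne_zero
    exact_mod_cast this
  refine Continuous.const_cpow ?_ (Or.inl hp')
  fun_prop

theorem SC_meas (a b T : ℝ) : MeasurableSet (SC a b T) := by
  have hc : Continuous fun t : ℝ => Real.sqrt 2 * ((Px T t).re / Real.sqrt (Real.log (Real.log T))) := by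
    have h1 := Px_cont T
    have h2 : Continuous fun t : ℝ => (Px T t).re := Complex.continuous_re.comp h1
    exact continuous_const.mul (h2.div_const _)
  have h1 : MeasurableSet {t : ℝ | a < Real.sqrt 2 * ((Px T t).re / Real.sqrt (Real.log (Real.log T))) ∧
      Real.sqrt 2 * ((Px T t).re / Real.sqrt (Real.log (Real.log T))) < b} :=
    (measurableSet_lt measurable_const hc.measurable).inter
      (measurableSet_lt hc.measurable measurable_const)
  exact measurableSet_Icc.inter h1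

/-- eventual inequalities for large `T` -/
theorem ev_large : ∀ᶠ T : ℝ in atTop, 0 < T ∧ 0 ≤ Real.log (Real.log T) ∧
    T + Real.log T ≤ 2 * T - Real.log T := by
  have h1 : Tendsto (fun T : ℝ => Real.log (Real.log T)) atTop atTop :=
    Real.tendsto_log_atTop.comp Real.tendsto_log_atTop
  have h2 : ∀ᶠ T : ℝ in atTop, Real.log T ≤ (1 / 2) * T := by
    have h3 := Real.isLittleO_log_id_atTop.bound (show (0 : ℝ) < 1 / 2 by norm_num)
    filter_upwards [h3, eventually_gt_atTop 0] with T hT hT0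
    rw [Real.norm_eq_abs, Real.norm_eq_abs, id, abs_of_pos hT0] at hT
    exact (le_abs_self _).trans hT
  filter_upwards [h1.eventually_ge_atTop 0, h2, eventually_gt_atTop 0] with T h3 h4 h5
  exact ⟨h5, h3, by linarith⟩

theorem sqrt_pow (x : ℝ) (hx : 0 ≤ x) (k l : ℕ) :
    Real.sqrt x ^ (k + l) = x ^ (((k : ℝ) + l) / 2) := by
  rw [Real.sqrt_eq_rpow, ← Real.rpow_natCast, ← Real.rpow_mul hx]
  congr 1
  push_cast
  ring

/-- the measure on the line -/
def mu (T : ℝ) (D : ℝ → ℝ) : Measure ℝ :=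
  ENNReal.ofReal (1 / T) • (volume.restrict (Set.Icc (T + Real.log T) (2 * T - Real.log T))).withDensity
    (fun t => ENNReal.ofReal (D t))

theorem mu_fin (T : ℝ) {D : ℝ → ℝ} (hD : Continuous D) : IsFiniteMeasure (mu T D) := by
  have h1 : Integrable D (volume.restrict (Set.Icc (T + Real.log T) (2 * T - Real.log T))) :=
    hD.continuousOn.integrableOn_Icc
  have := isFiniteMeasure_withDensity_ofReal h1.hasFiniteIntegral
  unfold mu
  exact Measure.smul_finite _ ENNReal.ofReal_ne_top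

theorem mu_int (T : ℝ) {D : ℝ → ℝ} (hD : Continuous D) {g : ℝ → ℝ} (hg : Continuous g) :
    Integrable g (mu T D) := by
  unfold mu
  refine Integrable.smul_measure ?_ ENNReal.ofReal_ne_top
  rw [integrable_withDensity_iff_integrable_smul₀' hD.measurable.ennreal_ofReal.aemeasurable
    (Eventually.of_forall fun t => ENNReal.ofReal_lt_top)]
  have h1 : Continuous fun t => (ENNReal.ofReal (D t)).toReal • g t := by
    have h2 : (fun t => (ENNReal.ofReal (D t)).toReal • g t) = fun t => max (D t) 0 * g t := by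
      funext t
      rw [ENNReal.toReal_ofReal', smul_eq_mul]
    rw [h2]
    exact (hD.max continuous_const).mul hg
  exact h1.continuousOn.integrableOn_Icc

theorem mu_integral {T : ℝ} (hT : 0 < T) (hT2 : T + Real.log T ≤ 2 * T - Real.log T) {D : ℝ → ℝ}
    (hD : Continuous D) (hD0 : ∀ t, 0 ≤ D t) (g : ℝ → ℂ) :
    ∫ t, g t ∂(mu T D) = ((1 / T : ℝ) : ℂ) *
      ∫ t in (T + Real.log T)..(2 * T - Real.log T), g t * (D t : ℂ) := by
  unfold mu
  rw [integral_smul_measure, integral_withDensity_eq_integral_toReal_smul₀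
    hD.measurable.ennreal_ofReal.aemeasurable (Eventually.of_forall fun t => ENNReal.ofReal_lt_top),
    intervalIntegral.integral_of_le hT2, integral_Icc_eq_integral_Ioc,
    ENNReal.toReal_ofReal (by positivity), Complex.real_smul]
  congr 1
  refine integral_congr_ae (Eventually.of_forall fun t => ?_)
  simp only
  rw [ENNReal.toReal_ofReal (hD0 t), Complex.real_smul, mul_comm]

theorem mu_set {T : ℝ} (hT : 0 < T) {D : ℝ → ℝ} (hD : Continuous D) (hD0 : ∀ t, 0 ≤ D t) (a b : ℝ) :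
    (mu T D).real {t | a < Real.sqrt 2 * (Px T t / (Real.sqrt (Real.log (Real.log T)) : ℂ)).re ∧
      Real.sqrt 2 * (Px T t / (Real.sqrt (Real.log (Real.log T)) : ℂ)).re < b} =
    (1 / T) * ∫ t in SC a b T, D t := by
  have hre : ∀ t, (Px T t / (Real.sqrt (Real.log (Real.log T)) : ℂ)).re =
      (Px T t).re / Real.sqrt (Real.log (Real.log T)) := fun t => Complex.div_ofReal_re _ _
  have hc : Continuous fun t : ℝ => Real.sqrt 2 * ((Px T t).re / Real.sqrt (Real.log (Real.log T))) := by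
    have h2 : Continuous fun t : ℝ => (Px T t).re := Complex.continuous_re.comp (Px_cont T)
    exact continuous_const.mul (h2.div_const _)
  have h1 : MeasurableSet {t : ℝ | a < Real.sqrt 2 * ((Px T t).re / Real.sqrt (Real.log (Real.log T))) ∧
      Real.sqrt 2 * ((Px T t).re / Real.sqrt (Real.log (Real.log T))) < b} :=
    (measurableSet_lt measurable_const hc.measurable).inter
      (measurableSet_lt hc.measurable measurable_const)
  simp only [hre]
  unfold mu
  rw [Measure.real, Measure.smul_apply, smul_eq_mul, ENNReal.toReal_mul,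
    ENNReal.toReal_ofReal (by positivity), withDensity_apply _ h1, Measure.restrict_restrict h1]
  congr 1
  have h2 : {t : ℝ | a < Real.sqrt 2 * ((Px T t).re / Real.sqrt (Real.log (Real.log T))) ∧
      Real.sqrt 2 * ((Px T t).re / Real.sqrt (Real.log (Real.log T))) < b} ∩
      Set.Icc (T + Real.log T) (2 * T - Real.log T) = SC a b T := by
    unfold SC
    ext t
    simp only [mem_inter_iff, mem_ofPred_eq]
    tauto
  rw [h2, integral_eq_lintegral_of_nonneg_ae (Eventually.of_forall hD0)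
    hD.aestronglyMeasurable.restrict]

/-- the limit law along sequences, with a weight -/
theorem master (hGM : P_GM) (x : ℕ → ℝ) (hx : Tendsto x atTop atTop) (D : ℕ → ℝ → ℝ)
    (hDc : ∀ n, Continuous (D n)) (hD0 : ∀ n t, 0 ≤ D n t) (Z : ℝ) (hZ : 0 ≤ Z)
    (hmom : ∀ k l : ℕ, Tendsto (fun n => (((1 / x n) * (1 / Real.log (Real.log (x n)) ^ (((k:ℝ) + l) / 2)) : ℝ) : ℂ) *
      (∫ t in (x n + Real.log (x n))..(2 * x n - Real.log (x n)), Px (x n) t ^ k *
        (starRingEnd ℂ) (Px (x n) t) ^ l * ((D n t : ℝ) : ℂ))) atTop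
      (𝓝 (if k = l then (k.factorial : ℂ) * (Z : ℂ) else 0))) (a b : ℝ) (hab : a < b) :
    Tendsto (fun n => (1 / x n) * ∫ t in SC a b (x n), D n t) atTop
      (𝓝 (Z * (ProbabilityTheory.gaussianReal 0 1).real (Set.Ioo a b))) := by
  have hev : ∀ᶠ n in atTop, 0 < x n ∧ 0 ≤ Real.log (Real.log (x n)) ∧
    x n + Real.log (x n) ≤ 2 * x n - Real.log (x n) := hx.eventually ev_large
  have hfc : ∀ n, Continuous fun t => Px (x n) t / (Real.sqrt (Real.log (Real.log (x n))) : ℂ) :=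
    fun n => (Px_cont _).div_const _
  have key := hGM (fun n => mu (x n) (D n))
    (fun n t => Px (x n) t / (Real.sqrt (Real.log (Real.log (x n))) : ℂ)) Z hZ
    (fun n => mu_fin _ (hDc n)) (fun n => (hfc n).measurable)
    (fun n k => mu_int _ (hDc n) ((hfc n).norm.pow k)) ?_ a b hab
  · refine key.congr' ?_
    filter_upwards [hev] with n hn
    exact mu_set hn.1 (hDc n) (hD0 n) a b
  · intro k l
    refine (hmom k l).congr' ?_
    filter_upwards [hev] with n hn
    rw [mu_integral hn.1 hn.2.2 (hDc n) (hD0 n)]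
    have hs : ((Real.log (Real.log (x n)) ^ (((k:ℝ) + l) / 2) : ℝ) : ℂ) =
        (Real.sqrt (Real.log (Real.log (x n))) : ℂ) ^ (k + l) := by
      rw [← sqrt_pow _ hn.2.1 k l]
      push_cast
      rfl
    have h1 : ∀ t, (Px (x n) t / (Real.sqrt (Real.log (Real.log (x n))) : ℂ)) ^ k *
        (starRingEnd ℂ) (Px (x n) t / (Real.sqrt (Real.log (Real.log (x n))) : ℂ)) ^ l * (D n t : ℂ) =
        (1 / (Real.sqrt (Real.log (Real.log (x n))) : ℂ) ^ (k + l)) *
          (Px (x n) t ^ k * (starRingEnd ℂ) (Px (x n) t) ^ l * ((D n t : ℝ) : ℂ)) := by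
      intro t
      rw [map_div₀, Complex.conj_ofReal, div_pow, div_pow, pow_add]
      simp only [div_eq_mul_inv, mul_inv]
      ring
    simp only [h1]
    rw [intervalIntegral.integral_const_mul, ← mul_assoc]
    congr 1
    rw [Complex.ofReal_mul, ← hs]
    push_cast
    ring

/-! ### the weight -/

theorem Gp_bd (B : ℝ → ℝ) (hB : Continuous B) (a u y : ℝ) :
    |Gp B a u y| ≤ 1 / Real.sqrt (2 * Real.pi) * ∫ ξ in (-1:ℝ)..1, |B ξ| := by
  unfold Gp
  have hpos : 0 ≤ 1 / Real.sqrt (2 * Real.pi) := by positivity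
  rw [abs_mul, abs_of_nonneg hpos]
  refine mul_le_mul_of_nonneg_left ?_ hpos
  rw [← Real.norm_eq_abs]
  refine intervalIntegral.norm_integral_le_of_norm_le (by norm_num) (Eventually.of_forall fun ξ _ => ?_)
    (hB.abs.intervalIntegrable _ _)
  rw [Real.norm_eq_abs]
  split_ifs with h
  · rw [abs_mul, abs_of_pos (Real.exp_pos _)]
    have h1 : Real.exp (-(u + ξ * a - y) ^ 2 / 2) ≤ 1 := by
      rw [Real.exp_le_one_iff]
      have := sq_nonneg (u + ξ * a - y)
      linarith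
    exact mul_le_of_le_one_right (abs_nonneg _) h1
  · rw [abs_zero]
    exact abs_nonneg _

theorem Gp_meas (B : ℝ → ℝ) (hB : Continuous B) (a y : ℝ) : Measurable (fun u => Gp B a u y) := by
  unfold Gp
  refine Measurable.const_mul ?_ _
  simp only [intervalIntegral.integral_of_le (show (-1 : ℝ) ≤ 1 by norm_num)]
  have h1 : StronglyMeasurable (fun p : ℝ × ℝ => if 0 ≤ p.1 + p.2 * a then
      B p.2 * Real.exp (-(p.1 + p.2 * a - y) ^ 2 / 2) else 0) := by
    apply Measurable.stronglyMeasurable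
    refine Measurable.ite ?_ ?_ measurable_const
    · exact measurableSet_le measurable_const (by fun_prop)
    · have := hB.measurable
      fun_prop
  exact (h1.integral_prod_right' (ν := volume.restrict (Set.Ioc (-1 : ℝ) 1))).measurable

theorem dp_bd (c : ℕ → ℂ) (B : ℝ → ℝ) (hB : Continuous B) (a u : ℝ) (n : ℕ) :
    ‖dp c B a u n‖ ≤ ‖c n‖ * ((Real.sqrt n)⁻¹ * (1 / Real.sqrt (2 * Real.pi) * ∫ ξ in (-1:ℝ)..1, |B ξ|)) := by
  unfold dp
  rw [norm_mul, Complex.norm_real, Real.norm_eq_abs, abs_mul, abs_of_nonneg (by positivity)]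
  refine mul_le_mul_of_nonneg_left ?_ (norm_nonneg _)
  exact mul_le_mul_of_nonneg_left (Gp_bd B hB a u _) (by positivity)

theorem dp_meas (c : ℕ → ℂ) (B : ℝ → ℝ) (hB : Continuous B) (a : ℝ) (n : ℕ) :
    Measurable (fun u => dp c B a u n) := by
  unfold dp
  refine Measurable.const_mul ?_ _
  exact Complex.measurable_ofReal.comp ((Gp_meas B hB a _).const_mul _)

theorem npow_cont (n : ℕ) (hn : 1 ≤ n) : Continuous fun t : ℝ => (n : ℂ) ^ (-(t : ℂ) * I) := by
  refine Continuous.const_cpow (by fun_prop) (Or.inl ?_)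
  have : n ≠ 0 := by omega
  exact_mod_cast this

theorem npow_norm (n : ℕ) (hn : 1 ≤ n) (t : ℝ) : ‖(n : ℂ) ^ (-(t : ℂ) * I)‖ = 1 := by
  have h : (0 : ℝ) < n := by exact_mod_cast hn
  rw [show (n : ℂ) = ((n : ℝ) : ℂ) by push_cast; rfl, Complex.norm_cpow_eq_rpow_re_of_pos h]
  simp

theorem DPp_cont (c : ℕ → ℂ) (B : ℝ → ℝ) (a u : ℝ) (X : ℕ) : Continuous (DPp c B a u X) := by
  unfold DPp
  refine continuous_finsetSum _ fun n hn => ?_
  exact continuous_const.mul (npow_cont n (Finset.mem_Icc.1 hn).1)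

theorem DPp_meas (c : ℕ → ℂ) (B : ℝ → ℝ) (hB : Continuous B) (a : ℝ) (X : ℕ) (t : ℝ) :
    Measurable (fun u => DPp c B a u X t) := by
  unfold DPp
  refine Finset.measurable_sum _ fun n _ => ?_
  exact (dp_meas c B hB a n).mul_const _

theorem DPp_bd (c : ℕ → ℂ) (B : ℝ → ℝ) (hB : Continuous B) (a : ℝ) (X : ℕ) : ∃ C : ℝ, ∀ u t : ℝ,
    ‖DPp c B a u X t‖ ≤ C := by
  refine ⟨∑ n ∈ Finset.Icc 1 X, ‖c n‖ * ((Real.sqrt n)⁻¹ *
    (1 / Real.sqrt (2 * Real.pi) * ∫ ξ in (-1:ℝ)..1, |B ξ|)), fun u t => ?_⟩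
  unfold DPp
  refine (norm_sum_le _ _).trans (Finset.sum_le_sum fun n hn => ?_)
  rw [norm_mul, npow_norm n (Finset.mem_Icc.1 hn).1, mul_one]
  exact dp_bd c B hB a u n

theorem Dq_cont (R : ℝ → ℝ) (hR : Continuous R) (c : ℕ → ℂ) (B : ℝ → ℝ) (hB : Continuous B)
    (ε τ η1 T : ℝ) : Continuous (Dq R c B ε τ η1 T) := by
  obtain ⟨C, hC⟩ := DPp_bd c B hB (τ * Real.log T) (XT ε T)
  have hC0 : 0 ≤ C := (norm_nonneg _).trans (hC 0 0)
  unfold Dq
  refine continuous_const.mul ?_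
  refine intervalIntegral.continuous_of_dominated_interval (bound := fun y => |R y| * C ^ 2)
    (fun t => ?_) (fun t => Eventually.of_forall fun y _ => ?_)
    ((hR.abs.mul continuous_const).intervalIntegrable _ _) (Eventually.of_forall fun y _ => ?_)
  · refine Measurable.aestronglyMeasurable ?_
    have h1 : Measurable fun y => DPp c B (τ * Real.log T) ((1 - ε) * Real.log T * y) (XT ε T) t :=
      (DPp_meas c B hB (τ * Real.log T) (XT ε T) t).comp (measurable_const.mul measurable_id)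
    exact hR.measurable.mul (h1.norm.pow_const 2)
  · rw [norm_mul, Real.norm_eq_abs, norm_pow, norm_norm]
    exact mul_le_mul_of_nonneg_left (pow_le_pow_left₀ (norm_nonneg _) (hC _ _) 2) (abs_nonneg _)
  · exact continuous_const.mul ((DPp_cont c B _ _ _).norm.pow 2)

theorem Dq_nonneg (R : ℝ → ℝ) (hR0 : ∀ x ∈ Set.Icc (0:ℝ) 1, 0 ≤ R x) (c : ℕ → ℂ) (B : ℝ → ℝ)
    (ε τ η1 T t : ℝ) (h0 : 0 ≤ η1) (h1 : η1 ≤ 1) : 0 ≤ Dq R c B ε τ η1 T t := by
  unfold Dq
  have h2 : 0 ≤ ∫ y in η1..1, R y *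
      ‖DPp c B (τ * Real.log T) ((1 - ε) * Real.log T * y) (XT ε T) t‖ ^ 2 := by
    refine intervalIntegral.integral_nonneg h1 fun y hy => ?_
    exact mul_nonneg (hR0 y ⟨h0.trans hy.1, hy.2⟩) (by positivity)
  linarith

theorem Zq_nonneg (R : ℝ → ℝ) (hR0 : ∀ x ∈ Set.Icc (0:ℝ) 1, 0 ≤ R x) (c : ℕ → ℂ) (B : ℝ → ℝ)
    (ε τ η1 T : ℝ) (h0 : 0 ≤ η1) (h1 : η1 ≤ 1) : 0 ≤ Zq R c B ε τ η1 T := by
  unfold Zq
  have h2 : 0 ≤ ∫ y in η1..1, R y * ∑ n ∈ Finset.Icc 1 (XT ε T),
      ‖dp c B (τ * Real.log T) ((1 - ε) * Real.log T * y) n‖ ^ 2 := by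
    refine intervalIntegral.integral_nonneg h1 fun y hy => ?_
    exact mul_nonneg (hR0 y ⟨h0.trans hy.1, hy.2⟩) (Finset.sum_nonneg fun n _ => by positivity)
  linarith

/-! ### the two limits -/

theorem lim_vol (hFM : P_FM) (hGM : P_GM) (a b : ℝ) (hab : a < b) :
    Tendsto (fun T : ℝ => (1 / T) * volume.real (SC a b T)) atTop
      (𝓝 ((ProbabilityTheory.gaussianReal 0 1).real (Set.Ioo a b))) := by
  refine tendsto_of_seq_tendsto fun x hx => ?_
  have h1 := master hGM x hx (fun _ _ => 1) (fun _ => continuous_const) (fun _ _ => zero_le_one) 1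
    zero_le_one (fun k l => ?_) a b hab
  · rw [one_mul] at h1
    refine h1.congr fun n => ?_
    simp [Function.comp]
  · have h2 := (hFM k l).comp hx
    simpa [Function.comp_def] using h2

theorem lim_wt (hTI : P_TI) (hGM : P_GM) (R : ℝ → ℝ) (hR : Continuous R)
    (hR0 : ∀ x ∈ Set.Icc (0:ℝ) 1, 0 ≤ R x) (B : ℝ → ℝ) (hB : Continuous B) (c : ℕ → ℂ)
    (hc : ∀ n, ‖c n‖ ≤ ArithmeticFunction.vonMangoldt n) (ε τ η1 : ℝ) (hε : 0 < ε) (hε2 : ε < 1 / 2)
    (hτ : 0 < τ) (hτε : τ ≤ ε / 4) (hη : 4 * τ ≤ η1) (hη1 : η1 ≤ 1)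
    (hK : ∃ K0 : ℝ, ∀ᶠ T : ℝ in atTop, Zq R c B ε τ η1 T ≤ K0) (a b : ℝ) (hab : a < b) :
    Tendsto (fun T : ℝ => (1 / T) * (∫ t in SC a b T, Dq R c B ε τ η1 T t) -
      (ProbabilityTheory.gaussianReal 0 1).real (Set.Ioo a b) * Zq R c B ε τ η1 T) atTop (𝓝 0) := by
  have h0 : 0 ≤ η1 := by linarith
  refine tendsto_of_subseq_tendsto fun x hx => ?_
  obtain ⟨K0, hK0⟩ := hK
  have hmem : ∀ᶠ n in atTop, Zq R c B ε τ η1 (x n) ∈ Set.Icc 0 K0 := by
    filter_upwards [hx.eventually hK0] with n hn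
    exact ⟨Zq_nonneg R hR0 c B ε τ η1 _ h0 hη1, hn⟩
  obtain ⟨Z, hZ, φ, hφ, hlim⟩ := isCompact_Icc.tendsto_subseq' hmem.frequently
  refine ⟨φ, ?_⟩
  have hxφ : Tendsto (x ∘ φ) atTop atTop := hx.comp hφ.tendsto_atTop
  have h1 := master hGM (x ∘ φ) hxφ (fun n => Dq R c B ε τ η1 ((x ∘ φ) n))
    (fun n => Dq_cont R hR c B hB ε τ η1 _) (fun n t => Dq_nonneg R hR0 c B ε τ η1 _ t h0 hη1) Z hZ.1
    (fun k l => ?_) a b hab
  · have h2 := hlim.const_mul ((ProbabilityTheory.gaussianReal 0 1).real (Set.Ioo a b))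
    have h3 := h1.sub h2
    rw [show Z * (ProbabilityTheory.gaussianReal 0 1).real (Set.Ioo a b) -
      (ProbabilityTheory.gaussianReal 0 1).real (Set.Ioo a b) * Z = 0 by ring] at h3
    exact h3
  · have h2 := (hTI R hR hR0 B hB c hc ε τ η1 hε hε2 hτ hτε hη hη1 k l).comp hxφ
    by_cases hkl : k = l
    · simp only [if_pos hkl] at h2 ⊢
      have h3 : Tendsto (fun n => (k.factorial : ℂ) * ((Zq R c B ε τ η1 ((x ∘ φ) n) : ℝ) : ℂ)) atTop
          (𝓝 ((k.factorial : ℂ) * (Z : ℂ))) :=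
        ((Complex.continuous_ofReal.tendsto Z).comp hlim).const_mul _
      have h4 := h2.add h3
      rw [zero_add] at h4
      refine h4.congr fun n => ?_
      simp only [Function.comp_apply]
      ring
    · simp only [if_neg hkl] at h2 ⊢
      refine h2.congr fun n => ?_
      simp only [Function.comp_apply]
      ring

theorem ind_aux (hFM : P_FM) (hTI : P_TI) (hGM : P_GM) : ∀ R : ℝ → ℝ, Continuous R →
    (∀ x ∈ Set.Icc (0:ℝ) 1, 0 ≤ R x) → ∀ B : ℝ → ℝ, Continuous B →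
  ∀ c : ℕ → ℂ, (∀ n, ‖c n‖ ≤ ArithmeticFunction.vonMangoldt n) →
  ∀ ε τ η1 : ℝ, 0 < ε → ε < 1 / 2 → 0 < τ → τ ≤ ε / 4 → 4 * τ ≤ η1 → η1 ≤ 1 →
  (∃ K0 : ℝ, ∀ᶠ T : ℝ in atTop, Zq R c B ε τ η1 T ≤ K0) → ∀ a b δ : ℝ, a < b → 0 < δ → ∀ᶠ T : ℝ in atTop,
    MeasurableSet (SC a b T) ∧
    |volume.real (SC a b T) - T * (ProbabilityTheory.gaussianReal 0 1).real (Set.Ioo a b)| ≤ δ * T ∧
    |(∫ t in SC a b T, Dq R c B ε τ η1 T t) -
      T * (ProbabilityTheory.gaussianReal 0 1).real (Set.Ioo a b) * Zq R c B ε τ η1 T| ≤ δ * T := by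
  intro R hR hR0 B hB c hc ε τ η1 hε hε2 hτ hτε hη hη1 hK a b δ hab hδ
  have h1 := lim_vol hFM hGM a b hab
  have h2 := lim_wt hTI hGM R hR hR0 B hB c hc ε τ η1 hε hε2 hτ hτε hη hη1 hK a b hab
  have h1' := Metric.tendsto_nhds.1 h1 δ hδ
  have h2' := Metric.tendsto_nhds.1 h2 δ hδ
  filter_upwards [h1', h2', eventually_gt_atTop 0] with T hT1 hT2 hT0
  rw [Real.dist_eq] at hT1 hT2
  refine ⟨SC_meas a b T, ?_, ?_⟩
  · have e : volume.real (SC a b T) - T * (ProbabilityTheory.gaussianReal 0 1).real (Set.Ioo a b) =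
        ((1 / T) * volume.real (SC a b T) - (ProbabilityTheory.gaussianReal 0 1).real (Set.Ioo a b)) * T := by
      field_simp
    rw [e, abs_mul, abs_of_pos hT0]
    exact mul_le_mul_of_nonneg_right hT1.le hT0.le
  · rw [sub_zero] at hT2
    have e : (∫ t in SC a b T, Dq R c B ε τ η1 T t) -
      T * (ProbabilityTheory.gaussianReal 0 1).real (Set.Ioo a b) * Zq R c B ε τ η1 T =
      ((1 / T) * (∫ t in SC a b T, Dq R c B ε τ η1 T t) -
      (ProbabilityTheory.gaussianReal 0 1).real (Set.Ioo a b) * Zq R c B ε τ η1 T) * T := by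
      field_simp
    rw [e, abs_mul, abs_of_pos hT0]
    exact mul_le_mul_of_nonneg_right hT2.le hT0.le

end

end Pool.Agent.Y275.SW
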