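import Pool.Agent.Y745.SW.DefsC
import Pool.Agent.Y275.SW.IndA

set_option autoImplicit false

/-!
SW project (helper745), task IND: Gaussian law of the small primes and independence from the weight.
-/

namespace Pool.Agent.Y275.SW

open Pool.Agent.Y745.SW

/-- Task IND. -/
theorem t_IND : P_FM → P_TI → P_GM → P_IND := by
  intro h1 h2 h3
  exact ind_aux h1 h2 h3

end Pool.Agent.Y275.SW
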